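import Mathlib

/-! Vertex connectivity and k-critically n-connected graphs: definitions and general criteria. -/

namespace Pool.Agent.CritDiam

open SimpleGraph

/-- Removing the vertex set `S` disconnects `G`: two remaining vertices are joined by no path of
`G - S`. -/
def Disconnects {V : Type} (G : SimpleGraph V) (S : Set V) : Prop :=
  ¬ (G.induce Sᶜ).Preconnected

open Classical in
/-- The vertex connectivity of a finite graph: the least size of a vertex set whose removal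
disconnects the graph, with `mu (K_m) = m - 1`. -/
noncomputable def mu {V : Type} (G : SimpleGraph V) : ℕ :=
  if G = ⊤ then Nat.card V - 1
  else sInf {s : ℕ | ∃ S : Set V, Disconnects G S ∧ S.ncard = s}

/-- `G` is an `(n,k)`-graph (k-critically n-connected): `mu (G - X) = n - |X|` for every vertex
set `X` with at most `k` elements. -/
def IsNK {V : Type} (n k : ℕ) (G : SimpleGraph V) : Prop :=
  ∀ X : Set V, X.ncard ≤ k → mu (G.induce Xᶜ) + X.ncard = n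

variable {V : Type}

lemma not_preconnected_iff (H : SimpleGraph V) :
    ¬ H.Preconnected ↔ ∃ F : Set V, (∃ u, u ∈ F) ∧ (∃ v, v ∉ F) ∧
      ∀ u v, H.Adj u v → (u ∈ F ↔ v ∈ F) := by
  constructor
  · intro h
    unfold Preconnected at h
    push Not at h
    obtain ⟨u, v, huv⟩ := h
    refine ⟨{w | H.Reachable u w}, ⟨u, Reachable.refl u⟩, ⟨v, huv⟩, ?_⟩
    intro a b hab
    constructor
    · intro h1
      exact Reachable.trans h1 hab.reachable
    · intro h1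
      exact Reachable.trans h1 hab.symm.reachable
  · rintro ⟨F, ⟨u, hu⟩, ⟨v, hv⟩, h⟩ hpre
    obtain ⟨p⟩ := hpre u v
    apply hv
    clear hv
    induction p with
    | nil => exact hu
    | cons hadj _ ih => exact ih ((h _ _ hadj).1 hu)

lemma disconnects_iff (G : SimpleGraph V) (S : Set V) :
    Disconnects G S ↔ ∃ F : Set V, (∃ u, u ∉ S ∧ u ∈ F) ∧ (∃ v, v ∉ S ∧ v ∉ F) ∧
      ∀ u v, u ∉ S → v ∉ S → G.Adj u v → (u ∈ F ↔ v ∈ F) := by
  unfold Disconnects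
  rw [not_preconnected_iff]
  constructor
  · rintro ⟨F, ⟨u, hu⟩, ⟨v, hv⟩, h⟩
    refine ⟨Subtype.val '' F, ⟨u.1, u.2, ⟨u, hu, rfl⟩⟩, ⟨v.1, v.2, ?_⟩, ?_⟩
    · rintro ⟨w, hw, hwv⟩
      exact hv (Subtype.ext hwv ▸ hw)
    · intro a b ha hb hab
      have := h ⟨a, ha⟩ ⟨b, hb⟩ hab
      constructor
      · rintro ⟨w, hw, hwv⟩
        have hw' : w = ⟨a, ha⟩ := Subtype.ext hwv
        subst hw'
        exact ⟨⟨b, hb⟩, this.1 hw, rfl⟩
      · rintro ⟨w, hw, hwv⟩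
        have hw' : w = ⟨b, hb⟩ := Subtype.ext hwv
        subst hw'
        exact ⟨⟨a, ha⟩, this.2 hw, rfl⟩
  · rintro ⟨F, ⟨u, hu, huF⟩, ⟨v, hv, hvF⟩, h⟩
    refine ⟨{w | w.1 ∈ F}, ⟨⟨u, hu⟩, huF⟩, ⟨⟨v, hv⟩, hvF⟩, ?_⟩
    intro a b hab
    exact h a.1 b.1 a.2 b.2 hab

/-- Separators of `G - X` and of `G`. -/
lemma disconnects_induce_iff (G : SimpleGraph V) (X : Set V) (S : Set ↑Xᶜ) :
    Disconnects (G.induce Xᶜ) S ↔ Disconnects G (X ∪ Subtype.val '' S) := by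
  rw [disconnects_iff, disconnects_iff]
  constructor
  · rintro ⟨F, ⟨u, hu, huF⟩, ⟨v, hv, hvF⟩, h⟩
    refine ⟨Subtype.val '' F, ⟨u.1, ?_, ⟨u, huF, rfl⟩⟩, ⟨v.1, ?_, ?_⟩, ?_⟩
    · rintro (h1 | ⟨w, hw, hwu⟩)
      · exact u.2 h1
      · exact hu (Subtype.ext hwu ▸ hw)
    · rintro (h1 | ⟨w, hw, hwu⟩)
      · exact v.2 h1
      · exact hv (Subtype.ext hwu ▸ hw)
    · rintro ⟨w, hw, hwv⟩
      exact hvF (Subtype.ext hwv ▸ hw)
    · intro a b ha hb hab
      have ha' : a ∈ Xᶜ := fun h1 => ha (Or.inl h1)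
      have hb' : b ∈ Xᶜ := fun h1 => hb (Or.inl h1)
      have := h ⟨a, ha'⟩ ⟨b, hb'⟩ (fun h1 => ha (Or.inr ⟨_, h1, rfl⟩))
        (fun h1 => hb (Or.inr ⟨_, h1, rfl⟩)) hab
      constructor
      · rintro ⟨w, hw, hwv⟩
        have hw' : w = ⟨a, ha'⟩ := Subtype.ext hwv
        subst hw'
        exact ⟨⟨b, hb'⟩, this.1 hw, rfl⟩
      · rintro ⟨w, hw, hwv⟩
        have hw' : w = ⟨b, hb'⟩ := Subtype.ext hwv
        subst hw'
        exact ⟨⟨a, ha'⟩, this.2 hw, rfl⟩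
  · rintro ⟨F, ⟨u, hu, huF⟩, ⟨v, hv, hvF⟩, h⟩
    have key : ∀ w, w ∉ (X ∪ Subtype.val '' S) → ∃ hw : w ∈ Xᶜ, (⟨w, hw⟩ : ↑Xᶜ) ∉ S := by
      intro w hw
      refine ⟨fun h1 => hw (Or.inl h1), fun h1 => hw (Or.inr ⟨_, h1, rfl⟩)⟩
    obtain ⟨hu1, hu2⟩ := key u hu
    obtain ⟨hv1, hv2⟩ := key v hv
    refine ⟨{w | w.1 ∈ F}, ⟨⟨u, hu1⟩, hu2, huF⟩, ⟨⟨v, hv1⟩, hv2, hvF⟩, ?_⟩
    intro a b ha hb hab
    apply h a.1 b.1 _ _ hab
    · rintro (h1 | ⟨w, hw, hwu⟩)
      · exact a.2 h1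
      · exact ha (Subtype.ext hwu ▸ hw)
    · rintro (h1 | ⟨w, hw, hwu⟩)
      · exact b.2 h1
      · exact hb (Subtype.ext hwu ▸ hw)

lemma ne_top_of_disconnects {G : SimpleGraph V} {S : Set V} (h : Disconnects G S) : G ≠ ⊤ := by
  rintro rfl
  rw [disconnects_iff] at h
  obtain ⟨F, ⟨u, hu, huF⟩, ⟨v, hv, hvF⟩, h⟩ := h
  have huv : u ≠ v := fun h1 => hvF (h1 ▸ huF)
  exact hvF ((h u v hu hv (by simpa using huv)).1 huF)

/-- The criterion: `G` is an `(n,k)`-graph if it is `n`-connected and every set of at most `k`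
vertices lies in a separator with exactly `n` vertices. -/
lemma isNK_of [Finite V] (G : SimpleGraph V) (n k : ℕ)
    (hconn : ∀ S : Set V, Disconnects G S → n ≤ S.ncard)
    (hcrit : ∀ X : Set V, X.ncard ≤ k → ∃ T : Set V, X ⊆ T ∧ Disconnects G T ∧ T.ncard = n) :
    IsNK n k G := by
  intro X hX
  obtain ⟨T, hXT, hT, hTn⟩ := hcrit X hX
  set S₀ : Set ↑Xᶜ := {w | w.1 ∈ T} with hS₀
  have himg : Subtype.val '' S₀ = T \ X := by
    ext w
    constructor
    · rintro ⟨w', hw', rfl⟩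
      exact ⟨hw', w'.2⟩
    · rintro ⟨h1, h2⟩
      exact ⟨⟨w, h2⟩, h1, rfl⟩
  have hS₀d : Disconnects (G.induce Xᶜ) S₀ := by
    rw [disconnects_induce_iff, himg, Set.union_sdiff_cancel hXT]
    exact hT
  have hS₀c : S₀.ncard + X.ncard = n := by
    have h1 : (Subtype.val '' S₀).ncard = S₀.ncard :=
      Set.ncard_image_of_injective _ Subtype.val_injective
    rw [← h1, himg, ← hTn]
    exact Set.ncard_sdiff_add_ncard_of_subset hXT
  have hne : G.induce Xᶜ ≠ ⊤ := ne_top_of_disconnects hS₀d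
  have hmu : mu (G.induce Xᶜ) = S₀.ncard := by
    unfold mu
    rw [if_neg hne]
    apply le_antisymm
    · exact Nat.sInf_le ⟨S₀, hS₀d, rfl⟩
    · refine le_csInf ⟨S₀.ncard, ⟨S₀, hS₀d, rfl⟩⟩ ?_
      rintro s ⟨S, hS, rfl⟩
      rw [disconnects_induce_iff] at hS
      have h1 := hconn _ hS
      have h2 : (X ∪ Subtype.val '' S).ncard ≤ X.ncard + (Subtype.val '' S).ncard :=
        Set.ncard_union_le _ _
      have h3 : (Subtype.val '' S).ncard = S.ncard :=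
        Set.ncard_image_of_injective _ Subtype.val_injective
      omega
  rw [hmu]
  exact hS₀c

lemma card_le_of_inj [Finite V] {D : Type} (S : Set V) (f : D → V)
    (hf : Function.Injective f) (h : ∀ d, f d ∈ S) : Nat.card D ≤ S.ncard := by
  have h1 : (f '' Set.univ).ncard = (Set.univ : Set D).ncard :=
    Set.ncard_image_of_injective _ hf
  rw [Set.ncard_univ] at h1
  rw [← h1]
  apply Set.ncard_le_ncard _ (Set.toFinite _)
  rintro _ ⟨d, _, rfl⟩
  exact h d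

lemma card_eq_of_inj {D : Type} (S : Set V) (f : D → V)
    (hf : Function.Injective f) (h : ∀ d, f d ∈ S) (h' : ∀ v ∈ S, ∃ d, f d = v) :
    S.ncard = Nat.card D := by
  have h1 : (f '' Set.univ).ncard = (Set.univ : Set D).ncard :=
    Set.ncard_image_of_injective _ hf
  rw [Set.ncard_univ] at h1
  rw [← h1]
  congr 1
  ext v
  constructor
  · intro hv
    obtain ⟨d, hd⟩ := h' v hv
    exact ⟨d, trivial, hd⟩
  · rintro ⟨d, _, rfl⟩
    exact h d

end Pool.Agent.CritDiam
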