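import Pool.Agent.CritDiam.Basic

/-! The construction of an `(n,k)`-graph of diameter 3. -/

namespace Pool.Agent.CritDiam

open SimpleGraph

/-- The blocks: `(k+1)`-element subsets of the set of `2k+3` parts. -/
abbrev Blk (k : ℕ) : Type := {I : Finset (Fin (2 * k + 3)) // I.card = k + 1}

/-- The vertices of the construction. -/
inductive Vtx (k t a b : ℕ) : Type
  | A (i : Fin a) : Vtx k t a b
  | B (j : Fin b) : Vtx k t a b
  | Z (I : Blk k) (e : Bool) : Vtx k t a b
  | P (i : Fin (2 * k + 3)) (s : Fin t) : Vtx k t a b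
  | Q (i : Fin (2 * k + 3)) (s : Fin t) : Vtx k t a b

variable {k t a b : ℕ}

/-- The (non-symmetrised) adjacency relation. -/
def rel : Vtx k t a b → Vtx k t a b → Prop
  | .A _, .A _ => True
  | .A _, .P _ _ => True
  | .P _ _, .P _ _ => True
  | .B _, .B _ => True
  | .B _, .Q _ _ => True
  | .Q _ _, .Q _ _ => True
  | .Z _ _, .Z _ _ => True
  | .P i s, .Q i' s' => i = i' ∧ s = s'
  | .Z _ e, .A i => (i : ℕ) ≠ 0 ∨ e = false
  | .Z _ e, .B j => (j : ℕ) ≠ 0 ∨ e = true
  | .Z I _, .P i _ => i ∈ I.1
  | .Z I _, .Q i _ => i ∈ I.1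
  | _, _ => False

/-- The graph of the construction. -/
def gr (k t a b : ℕ) : SimpleGraph (Vtx k t a b) := SimpleGraph.fromRel rel

/-- Encoding of the vertices in a sum type. -/
def enc : Vtx k t a b → (Fin a ⊕ Fin b) ⊕ ((Blk k × Bool) ⊕
    ((Fin (2 * k + 3) × Fin t) ⊕ (Fin (2 * k + 3) × Fin t)))
  | .A i => Sum.inl (Sum.inl i)
  | .B j => Sum.inl (Sum.inr j)
  | .Z I e => Sum.inr (Sum.inl (I, e))
  | .P i s => Sum.inr (Sum.inr (Sum.inl (i, s)))
  | .Q i s => Sum.inr (Sum.inr (Sum.inr (i, s)))

lemma enc_injective : Function.Injective (enc : Vtx k t a b → _) := by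
  intro u v h
  cases u <;> cases v <;> simp_all [enc]

instance : Finite (Vtx k t a b) := Finite.of_injective enc enc_injective

/-- `v` lies in the clique `A ∪ P`. -/
def inX : Vtx k t a b → Prop
  | .A _ => True
  | .P _ _ => True
  | _ => False

/-- `v` lies in the clique `B ∪ Q`. -/
def inY : Vtx k t a b → Prop
  | .B _ => True
  | .Q _ _ => True
  | _ => False

/-- `v` lies in the clique `Z`. -/
def inZ : Vtx k t a b → Prop
  | .Z _ _ => True
  | _ => False

lemma cases3 (v : Vtx k t a b) : inX v ∨ inY v ∨ inZ v := by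
  cases v <;> simp [inX, inY, inZ]

lemma adj_X {u v : Vtx k t a b} (hu : inX u) (hv : inX v) (h : u ≠ v) : (gr k t a b).Adj u v := by
  cases u <;> cases v <;> simp_all [inX, gr, fromRel_adj, rel]

lemma adj_Y {u v : Vtx k t a b} (hu : inY u) (hv : inY v) (h : u ≠ v) : (gr k t a b).Adj u v := by
  cases u <;> cases v <;> simp_all [inY, gr, fromRel_adj, rel]

lemma adj_Z {u v : Vtx k t a b} (hu : inZ u) (hv : inZ v) (h : u ≠ v) : (gr k t a b).Adj u v := by
  cases u <;> cases v <;> simp_all [inZ, gr, fromRel_adj, rel]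

lemma adj_PQ (i : Fin (2 * k + 3)) (s : Fin t) :
    (gr k t a b).Adj (.P i s) (.Q i s) := by
  simp [gr, fromRel_adj, rel]

lemma adj_ZA (I : Blk k) (e : Bool) (i : Fin a) :
    (gr k t a b).Adj (.Z I e) (.A i) ↔ ((i : ℕ) ≠ 0 ∨ e = false) := by
  simp [gr, fromRel_adj, rel]

lemma adj_ZB (I : Blk k) (e : Bool) (j : Fin b) :
    (gr k t a b).Adj (.Z I e) (.B j) ↔ ((j : ℕ) ≠ 0 ∨ e = true) := by
  simp [gr, fromRel_adj, rel]

lemma adj_ZP (I : Blk k) (e : Bool) (i : Fin (2 * k + 3)) (s : Fin t) :
    (gr k t a b).Adj (.Z I e) (.P i s) ↔ i ∈ I.1 := by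
  simp [gr, fromRel_adj, rel]

lemma adj_ZQ (I : Blk k) (e : Bool) (i : Fin (2 * k + 3)) (s : Fin t) :
    (gr k t a b).Adj (.Z I e) (.Q i s) ↔ i ∈ I.1 := by
  simp [gr, fromRel_adj, rel]

/-- A cut isolates one of the three cliques. -/
lemma three_cases {S : Set (Vtx k t a b)} (h : Disconnects (gr k t a b) S) :
    ((∃ u, u ∉ S ∧ inX u) ∧ ∀ u v, u ∉ S → v ∉ S → inX u → ¬ inX v → ¬ (gr k t a b).Adj u v) ∨
    ((∃ u, u ∉ S ∧ inY u) ∧ ∀ u v, u ∉ S → v ∉ S → inY u → ¬ inY v → ¬ (gr k t a b).Adj u v) ∨
    ((∃ u, u ∉ S ∧ inZ u) ∧ ∀ u v, u ∉ S → v ∉ S → inZ u → ¬ inZ v → ¬ (gr k t a b).Adj u v) := by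
  rw [disconnects_iff] at h
  obtain ⟨F, ⟨u₀, hu₀, hu₀F⟩, ⟨v₀, hv₀, hv₀F⟩, hF⟩ := h
  -- each clique lies on one side
  have hX : (∀ u, u ∉ S → inX u → u ∈ F) ∨ (∀ u, u ∉ S → inX u → u ∉ F) := by
    by_contra hcon
    push Not at hcon
    obtain ⟨⟨u, hu, hux, huF⟩, ⟨v, hv, hvx, hvF⟩⟩ := hcon
    have hne : v ≠ u := fun h1 => huF (h1 ▸ hvF)
    exact huF ((hF v u hv hu (adj_X hvx hux hne)).1 hvF)
  have hY : (∀ u, u ∉ S → inY u → u ∈ F) ∨ (∀ u, u ∉ S → inY u → u ∉ F) := by
    by_contra hcon
    push Not at hcon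
    obtain ⟨⟨u, hu, hux, huF⟩, ⟨v, hv, hvx, hvF⟩⟩ := hcon
    have hne : v ≠ u := fun h1 => huF (h1 ▸ hvF)
    exact huF ((hF v u hv hu (adj_Y hvx hux hne)).1 hvF)
  have hZ : (∀ u, u ∉ S → inZ u → u ∈ F) ∨ (∀ u, u ∉ S → inZ u → u ∉ F) := by
    by_contra hcon
    push Not at hcon
    obtain ⟨⟨u, hu, hux, huF⟩, ⟨v, hv, hvx, hvF⟩⟩ := hcon
    have hne : v ≠ u := fun h1 => huF (h1 ▸ hvF)
    exact huF ((hF v u hv hu (adj_Z hvx hux hne)).1 hvF)
  have hsep : ∀ u v, u ∉ S → v ∉ S → ¬ (u ∈ F ↔ v ∈ F) → ¬ (gr k t a b).Adj u v :=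
    fun u v hu hv hne hadj => hne (hF u v hu hv hadj)
  -- which clique contains a vertex
  by_cases neX : ∃ u, u ∉ S ∧ inX u
  · by_cases neY : ∃ u, u ∉ S ∧ inY u
    · by_cases neZ : ∃ u, u ∉ S ∧ inZ u
      · -- all three nonempty
        rcases hX with hX | hX <;> rcases hY with hY | hY <;> rcases hZ with hZ | hZ
        · exfalso
          rcases cases3 v₀ with h1 | h1 | h1
          · exact hv₀F (hX _ hv₀ h1)
          · exact hv₀F (hY _ hv₀ h1)
          · exact hv₀F (hZ _ hv₀ h1)
        · right; right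
          refine ⟨neZ, fun u v hu hv huz hvz => hsep u v hu hv ?_⟩
          have h1 := hZ u hu huz
          have h2 : v ∈ F := by
            rcases cases3 v with h1 | h1 | h1
            · exact hX _ hv h1
            · exact hY _ hv h1
            · exact absurd h1 hvz
          tauto
        · right; left
          refine ⟨neY, fun u v hu hv huz hvz => hsep u v hu hv ?_⟩
          have h1 := hY u hu huz
          have h2 : v ∈ F := by
            rcases cases3 v with h1 | h1 | h1
            · exact hX _ hv h1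
            · exact absurd h1 hvz
            · exact hZ _ hv h1
          tauto
        · left
          refine ⟨neX, fun u v hu hv huz hvz => hsep u v hu hv ?_⟩
          have h1 := hX u hu huz
          have h2 : v ∉ F := by
            rcases cases3 v with h1 | h1 | h1
            · exact absurd h1 hvz
            · exact hY _ hv h1
            · exact hZ _ hv h1
          tauto
        · left
          refine ⟨neX, fun u v hu hv huz hvz => hsep u v hu hv ?_⟩
          have h1 := hX u hu huz
          have h2 : v ∈ F := by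
            rcases cases3 v with h1 | h1 | h1
            · exact absurd h1 hvz
            · exact hY _ hv h1
            · exact hZ _ hv h1
          tauto
        · right; left
          refine ⟨neY, fun u v hu hv huz hvz => hsep u v hu hv ?_⟩
          have h1 := hY u hu huz
          have h2 : v ∉ F := by
            rcases cases3 v with h1 | h1 | h1
            · exact hX _ hv h1
            · exact absurd h1 hvz
            · exact hZ _ hv h1
          tauto
        · right; right
          refine ⟨neZ, fun u v hu hv huz hvz => hsep u v hu hv ?_⟩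
          have h1 := hZ u hu huz
          have h2 : v ∉ F := by
            rcases cases3 v with h1 | h1 | h1
            · exact hX _ hv h1
            · exact hY _ hv h1
            · exact absurd h1 hvz
          tauto
        · exfalso
          rcases cases3 u₀ with h1 | h1 | h1
          · exact (hX _ hu₀ h1) hu₀F
          · exact (hY _ hu₀ h1) hu₀F
          · exact (hZ _ hu₀ h1) hu₀F
      · -- Z empty: X against Y
        left
        refine ⟨neX, fun u v hu hv huz hvz => ?_⟩
        have hvY : inY v := by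
          rcases cases3 v with h1 | h1 | h1
          · exact absurd h1 hvz
          · exact h1
          · exact absurd ⟨v, hv, h1⟩ neZ
        apply hsep u v hu hv
        rcases hX with hX | hX <;> rcases hY with hY | hY
        · exfalso
          rcases cases3 v₀ with h1 | h1 | h1
          · exact hv₀F (hX _ hv₀ h1)
          · exact hv₀F (hY _ hv₀ h1)
          · exact neZ ⟨_, hv₀, h1⟩
        · have := hX u hu huz
          have := hY v hv hvY
          tauto
        · have := hX u hu huz
          have := hY v hv hvY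
          tauto
        · exfalso
          rcases cases3 u₀ with h1 | h1 | h1
          · exact (hX _ hu₀ h1) hu₀F
          · exact (hY _ hu₀ h1) hu₀F
          · exact neZ ⟨_, hu₀, h1⟩
    · -- Y empty: X against Z
      left
      refine ⟨neX, fun u v hu hv huz hvz => ?_⟩
      have hvZ : inZ v := by
        rcases cases3 v with h1 | h1 | h1
        · exact absurd h1 hvz
        · exact absurd ⟨v, hv, h1⟩ neY
        · exact h1
      apply hsep u v hu hv
      rcases hX with hX | hX <;> rcases hZ with hZ | hZ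
      · exfalso
        rcases cases3 v₀ with h1 | h1 | h1
        · exact hv₀F (hX _ hv₀ h1)
        · exact neY ⟨_, hv₀, h1⟩
        · exact hv₀F (hZ _ hv₀ h1)
      · have := hX u hu huz
        have := hZ v hv hvZ
        tauto
      · have := hX u hu huz
        have := hZ v hv hvZ
        tauto
      · exfalso
        rcases cases3 u₀ with h1 | h1 | h1
        · exact (hX _ hu₀ h1) hu₀F
        · exact neY ⟨_, hu₀, h1⟩
        · exact (hZ _ hu₀ h1) hu₀F
  · -- X empty: Y against Z
    right; left
    have neY : ∃ u, u ∉ S ∧ inY u := by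
      by_contra neY
      rcases hZ with hZ | hZ
      · rcases cases3 v₀ with h1 | h1 | h1
        · exact neX ⟨_, hv₀, h1⟩
        · exact neY ⟨_, hv₀, h1⟩
        · exact hv₀F (hZ _ hv₀ h1)
      · rcases cases3 u₀ with h1 | h1 | h1
        · exact neX ⟨_, hu₀, h1⟩
        · exact neY ⟨_, hu₀, h1⟩
        · exact (hZ _ hu₀ h1) hu₀F
    refine ⟨neY, fun u v hu hv huz hvz => ?_⟩
    have hvZ : inZ v := by
      rcases cases3 v with h1 | h1 | h1
      · exact absurd ⟨v, hv, h1⟩ neX
      · exact absurd h1 hvz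
      · exact h1
    apply hsep u v hu hv
    rcases hY with hY | hY <;> rcases hZ with hZ | hZ
    · exfalso
      rcases cases3 v₀ with h1 | h1 | h1
      · exact neX ⟨_, hv₀, h1⟩
      · exact hv₀F (hY _ hv₀ h1)
      · exact hv₀F (hZ _ hv₀ h1)
    · have := hY u hu huz
      have := hZ v hv hvZ
      tauto
    · have := hY u hu huz
      have := hZ v hv hvZ
      tauto
    · exfalso
      rcases cases3 u₀ with h1 | h1 | h1
      · exact neX ⟨_, hu₀, h1⟩
      · exact (hY _ hu₀ h1) hu₀F
      · exact (hZ _ hu₀ h1) hu₀F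

end Pool.Agent.CritDiam
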