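import Pool.Agent.CritDiam.Construct

/-! The construction is `n`-connected. -/

namespace Pool.Agent.CritDiam

open SimpleGraph

variable {k t a b : ℕ}

/-- number of blocks -/
noncomputable def nb (k : ℕ) : ℕ := Nat.card (Blk k)

lemma card_parts (k t : ℕ) : Nat.card (Fin (2 * k + 3) × Fin t) = (2 * k + 3) * t := by
  simp

lemma card_ne_zero_fin (a : ℕ) (ha : 0 < a) : Nat.card {i : Fin a // (i : ℕ) ≠ 0} = a - 1 := by
  obtain ⟨m, rfl⟩ : ∃ m, a = m + 1 := ⟨a - 1, by omega⟩
  have e : {i : Fin (m + 1) // (i : ℕ) ≠ 0} ≃ Fin m :=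
    { toFun := fun i => ⟨i.1.1 - 1, by have := i.1.2; have := i.2; omega⟩
      invFun := fun j => ⟨⟨j.1 + 1, by have := j.2; omega⟩, by simp⟩
      left_inv := by
        rintro ⟨⟨i, hi⟩, hi0⟩
        simp only [Subtype.mk.injEq, Fin.mk.injEq]
        simp only [ne_eq] at hi0
        omega
      right_inv := by
        rintro ⟨j, hj⟩
        simp }
  rw [Nat.card_congr e]
  simp

/-- Clique `A ∪ P` isolated. -/
lemma lower_X {S : Set (Vtx k t a b)} (ha : 0 < a)
    (_hne : ∃ u, u ∉ S ∧ inX u)
    (h : ∀ u v, u ∉ S → v ∉ S → inX u → ¬ inX v → ¬ (gr k t a b).Adj u v) :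
    (2 * k + 3) * t + 2 * nb k ≤ S.ncard ∨
    (2 * k + 3) * t + (a - 1) + nb k ≤ S.ncard ∨
    (2 * k + 3) * t + a ≤ S.ncard := by
  classical
  have hPQ : ∀ i s, Vtx.P i s ∉ S → Vtx.Q i s ∈ S := by
    intro i s hP
    by_contra hQ
    exact h _ _ hP hQ trivial (fun h => h) (adj_PQ i s)
  by_cases h1 : ∃ i : Fin a, (i : ℕ) ≠ 0 ∧ Vtx.A i ∉ S
  · left
    obtain ⟨i₀, hi₀, hi₀S⟩ := h1
    have hZ : ∀ I e, Vtx.Z I e ∈ S := by
      intro I e
      by_contra hZ
      exact h _ _ hi₀S hZ trivial (fun h => h) ((adj_ZA I e i₀).2 (Or.inl hi₀)).symm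
    have := card_le_of_inj (D := (Fin (2 * k + 3) × Fin t) ⊕ (Blk k × Bool)) S
      (fun d => match d with
        | Sum.inl (i, s) => if Vtx.P i s ∈ S then Vtx.P i s else Vtx.Q i s
        | Sum.inr (I, e) => Vtx.Z I e) ?_ ?_
    · rw [Nat.card_sum, card_parts, Nat.card_prod] at this
      simp only [Nat.card_eq_fintype_card, Fintype.card_bool] at this
      simp only [nb, Nat.card_eq_fintype_card]
      omega
    · rintro (⟨i, s⟩ | ⟨I, e⟩) (⟨i', s'⟩ | ⟨I', e'⟩) heq
      · dsimp only at heq
        split_ifs at heq <;> simp_all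
      · dsimp only at heq
        split_ifs at heq
      · dsimp only at heq
        split_ifs at heq
      · simpa using heq
    · rintro (⟨i, s⟩ | ⟨I, e⟩)
      · dsimp only
        split_ifs with hP
        · exact hP
        · exact hPQ i s hP
      · exact hZ I e
  · push Not at h1
    right
    by_cases h2 : ∃ i : Fin a, Vtx.A i ∉ S
    · left
      obtain ⟨i₀, hi₀S⟩ := h2
      have hZ : ∀ I, Vtx.Z I false ∈ S := by
        intro I
        by_contra hZ
        exact h _ _ hi₀S hZ trivial (fun h => h) ((adj_ZA I false i₀).2 (Or.inr rfl)).symm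
      have := card_le_of_inj
        (D := (Fin (2 * k + 3) × Fin t) ⊕ ({i : Fin a // (i : ℕ) ≠ 0} ⊕ Blk k)) S
        (fun d => match d with
          | Sum.inl (i, s) => if Vtx.P i s ∈ S then Vtx.P i s else Vtx.Q i s
          | Sum.inr (Sum.inl i) => Vtx.A i.1
          | Sum.inr (Sum.inr I) => Vtx.Z I false) ?_ ?_
      · rw [Nat.card_sum, card_parts, Nat.card_sum, card_ne_zero_fin a ha] at this
        unfold nb
        omega
      · rintro (⟨i, s⟩ | i | I) (⟨i', s'⟩ | i' | I') heq
        · dsimp only at heq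
          split_ifs at heq <;> simp_all
        · dsimp only at heq
          split_ifs at heq
        · dsimp only at heq
          split_ifs at heq
        · dsimp only at heq
          split_ifs at heq
        · simp only [Vtx.A.injEq] at heq
          rw [Subtype.ext heq]
        · simp at heq
        · dsimp only at heq
          split_ifs at heq
        · simp at heq
        · simpa using heq
      · rintro (⟨i, s⟩ | i | I)
        · dsimp only
          split_ifs with hP
          · exact hP
          · exact hPQ i s hP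
        · exact h1 i.1 i.2
        · exact hZ I
    · right
      push Not at h2
      have := card_le_of_inj
        (D := (Fin (2 * k + 3) × Fin t) ⊕ Fin a) S
        (fun d => match d with
          | Sum.inl (i, s) => if Vtx.P i s ∈ S then Vtx.P i s else Vtx.Q i s
          | Sum.inr i => Vtx.A i) ?_ ?_
      · rw [Nat.card_sum, card_parts, Nat.card_fin] at this
        omega
      · rintro (⟨i, s⟩ | i) (⟨i', s'⟩ | i') heq
        · dsimp only at heq
          split_ifs at heq <;> simp_all
        · dsimp only at heq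
          split_ifs at heq
        · dsimp only at heq
          split_ifs at heq
        · simpa using heq
      · rintro (⟨i, s⟩ | i)
        · dsimp only
          split_ifs with hP
          · exact hP
          · exact hPQ i s hP
        · exact h2 i

/-- Clique `B ∪ Q` isolated. -/
lemma lower_Y {S : Set (Vtx k t a b)} (hb : 0 < b)
    (_hne : ∃ u, u ∉ S ∧ inY u)
    (h : ∀ u v, u ∉ S → v ∉ S → inY u → ¬ inY v → ¬ (gr k t a b).Adj u v) :
    (2 * k + 3) * t + 2 * nb k ≤ S.ncard ∨
    (2 * k + 3) * t + (b - 1) + nb k ≤ S.ncard ∨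
    (2 * k + 3) * t + b ≤ S.ncard := by
  classical
  have hPQ : ∀ i s, Vtx.Q i s ∉ S → Vtx.P i s ∈ S := by
    intro i s hP
    by_contra hQ
    exact h _ _ hP hQ trivial (fun h => h) (adj_PQ i s).symm
  by_cases h1 : ∃ i : Fin b, (i : ℕ) ≠ 0 ∧ Vtx.B i ∉ S
  · left
    obtain ⟨i₀, hi₀, hi₀S⟩ := h1
    have hZ : ∀ I e, Vtx.Z I e ∈ S := by
      intro I e
      by_contra hZ
      exact h _ _ hi₀S hZ trivial (fun h => h) ((adj_ZB I e i₀).2 (Or.inl hi₀)).symm
    have := card_le_of_inj (D := (Fin (2 * k + 3) × Fin t) ⊕ (Blk k × Bool)) S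
      (fun d => match d with
        | Sum.inl (i, s) => if Vtx.Q i s ∈ S then Vtx.Q i s else Vtx.P i s
        | Sum.inr (I, e) => Vtx.Z I e) ?_ ?_
    · rw [Nat.card_sum, card_parts, Nat.card_prod] at this
      simp only [Nat.card_eq_fintype_card, Fintype.card_bool] at this
      simp only [nb, Nat.card_eq_fintype_card]
      omega
    · rintro (⟨i, s⟩ | ⟨I, e⟩) (⟨i', s'⟩ | ⟨I', e'⟩) heq
      · dsimp only at heq
        split_ifs at heq <;> simp_all
      · dsimp only at heq
        split_ifs at heq
      · dsimp only at heq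
        split_ifs at heq
      · simpa using heq
    · rintro (⟨i, s⟩ | ⟨I, e⟩)
      · dsimp only
        split_ifs with hP
        · exact hP
        · exact hPQ i s hP
      · exact hZ I e
  · push Not at h1
    right
    by_cases h2 : ∃ i : Fin b, Vtx.B i ∉ S
    · left
      obtain ⟨i₀, hi₀S⟩ := h2
      have hZ : ∀ I, Vtx.Z I true ∈ S := by
        intro I
        by_contra hZ
        exact h _ _ hi₀S hZ trivial (fun h => h) ((adj_ZB I true i₀).2 (Or.inr rfl)).symm
      have := card_le_of_inj
        (D := (Fin (2 * k + 3) × Fin t) ⊕ ({i : Fin b // (i : ℕ) ≠ 0} ⊕ Blk k)) S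
        (fun d => match d with
          | Sum.inl (i, s) => if Vtx.Q i s ∈ S then Vtx.Q i s else Vtx.P i s
          | Sum.inr (Sum.inl i) => Vtx.B i.1
          | Sum.inr (Sum.inr I) => Vtx.Z I true) ?_ ?_
      · rw [Nat.card_sum, card_parts, Nat.card_sum, card_ne_zero_fin b hb] at this
        unfold nb
        omega
      · rintro (⟨i, s⟩ | i | I) (⟨i', s'⟩ | i' | I') heq
        · dsimp only at heq
          split_ifs at heq <;> simp_all
        · dsimp only at heq
          split_ifs at heq
        · dsimp only at heq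
          split_ifs at heq
        · dsimp only at heq
          split_ifs at heq
        · simp only [Vtx.B.injEq] at heq
          rw [Subtype.ext heq]
        · simp at heq
        · dsimp only at heq
          split_ifs at heq
        · simp at heq
        · simpa using heq
      · rintro (⟨i, s⟩ | i | I)
        · dsimp only
          split_ifs with hP
          · exact hP
          · exact hPQ i s hP
        · exact h1 i.1 i.2
        · exact hZ I
    · right
      push Not at h2
      have := card_le_of_inj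
        (D := (Fin (2 * k + 3) × Fin t) ⊕ Fin b) S
        (fun d => match d with
          | Sum.inl (i, s) => if Vtx.Q i s ∈ S then Vtx.Q i s else Vtx.P i s
          | Sum.inr i => Vtx.B i) ?_ ?_
      · rw [Nat.card_sum, card_parts, Nat.card_fin] at this
        omega
      · rintro (⟨i, s⟩ | i) (⟨i', s'⟩ | i') heq
        · dsimp only at heq
          split_ifs at heq <;> simp_all
        · dsimp only at heq
          split_ifs at heq
        · dsimp only at heq
          split_ifs at heq
        · simpa using heq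
      · rintro (⟨i, s⟩ | i)
        · dsimp only
          split_ifs with hP
          · exact hP
          · exact hPQ i s hP
        · exact h2 i

/-- Clique `Z` isolated. -/
lemma lower_Z {S : Set (Vtx k t a b)} (ha : 0 < a) (hb : 0 < b)
    (hne : ∃ u, u ∉ S ∧ inZ u)
    (h : ∀ u v, u ∉ S → v ∉ S → inZ u → ¬ inZ v → ¬ (gr k t a b).Adj u v) :
    (a - 1) + (b - 1) + 2 * ((k + 2) * t) ≤ S.ncard ∨
    a + b + 2 * (nb k - 1) + 2 * ((k + 1) * t) ≤ S.ncard := by
  classical
  have hA : ∀ I e (i : Fin a), Vtx.Z I e ∉ S → ((i : ℕ) ≠ 0 ∨ e = false) → Vtx.A i ∈ S := by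
    intro I e i hZ hi
    by_contra hAi
    exact h _ _ hZ hAi trivial (fun h => h) ((adj_ZA I e i).2 hi)
  have hB : ∀ I e (i : Fin b), Vtx.Z I e ∉ S → ((i : ℕ) ≠ 0 ∨ e = true) → Vtx.B i ∈ S := by
    intro I e i hZ hi
    by_contra hAi
    exact h _ _ hZ hAi trivial (fun h => h) ((adj_ZB I e i).2 hi)
  have hP : ∀ I e i s, Vtx.Z I e ∉ S → i ∈ I.1 → Vtx.P i s ∈ S := by
    intro I e i s hZ hi
    by_contra hAi
    exact h _ _ hZ hAi trivial (fun h => h) ((adj_ZP I e i s).2 hi)
  have hQ : ∀ I e i s, Vtx.Z I e ∉ S → i ∈ I.1 → Vtx.Q i s ∈ S := by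
    intro I e i s hZ hi
    by_contra hAi
    exact h _ _ hZ hAi trivial (fun h => h) ((adj_ZQ I e i s).2 hi)
  obtain ⟨u, huS, huZ⟩ := hne
  obtain ⟨I, e, rfl⟩ : ∃ I e, u = Vtx.Z I e := by
    cases u <;> simp [inZ] at huZ ⊢
  by_cases h1 : ∃ J e', Vtx.Z J e' ∉ S ∧ J ≠ I
  · left
    obtain ⟨J, e', hJS, hJI⟩ := h1
    obtain ⟨i₀, hi₀J, hi₀I⟩ : ∃ i₀, i₀ ∈ J.1 ∧ i₀ ∉ I.1 := by
      by_contra hcon
      push Not at hcon
      apply hJI
      apply Subtype.ext
      apply Finset.eq_of_subset_of_card_le hcon
      rw [J.2, I.2]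
    have hPi : ∀ i s, i ∈ insert i₀ I.1 → Vtx.P i s ∈ S := by
      intro i s hi
      rcases Finset.mem_insert.1 hi with rfl | hi
      · exact hP J e' _ s hJS hi₀J
      · exact hP I e _ s huS hi
    have hQi : ∀ i s, i ∈ insert i₀ I.1 → Vtx.Q i s ∈ S := by
      intro i s hi
      rcases Finset.mem_insert.1 hi with rfl | hi
      · exact hQ J e' _ s hJS hi₀J
      · exact hQ I e _ s huS hi
    have := card_le_of_inj
      (D := ({i : Fin a // (i : ℕ) ≠ 0} ⊕ {i : Fin b // (i : ℕ) ≠ 0}) ⊕
        ((↥(insert i₀ I.1) × Fin t) ⊕ (↥(insert i₀ I.1) × Fin t))) S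
      (fun d => match d with
        | Sum.inl (Sum.inl i) => Vtx.A i.1
        | Sum.inl (Sum.inr i) => Vtx.B i.1
        | Sum.inr (Sum.inl (i, s)) => Vtx.P i.1 s
        | Sum.inr (Sum.inr (i, s)) => Vtx.Q i.1 s) ?_ ?_
    · rw [Nat.card_sum, Nat.card_sum, Nat.card_sum, card_ne_zero_fin a ha, card_ne_zero_fin b hb,
        Nat.card_prod, Nat.card_fin, Nat.card_eq_fintype_card, Fintype.card_coe,
        Finset.card_insert_of_notMem hi₀I, I.2] at this
      calc _ = a - 1 + (b - 1) + ((k + 1 + 1) * t + (k + 1 + 1) * t) := by ring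
        _ ≤ _ := this
    · rintro ((i | i) | (⟨i, s⟩ | ⟨i, s⟩)) ((i' | i') | (⟨i', s'⟩ | ⟨i', s'⟩)) heq <;>
        first
          | (simp at heq; done)
          | (simp only [Vtx.A.injEq] at heq; rw [Subtype.ext heq])
          | (simp only [Vtx.B.injEq] at heq; rw [Subtype.ext heq])
          | (simp only [Vtx.P.injEq] at heq; obtain ⟨h1, h2⟩ := heq; rw [Subtype.ext h1, h2])
          | (simp only [Vtx.Q.injEq] at heq; obtain ⟨h1, h2⟩ := heq; rw [Subtype.ext h1, h2])
    · rintro ((i | i) | (⟨i, s⟩ | ⟨i, s⟩))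
      · exact hA I e i.1 huS (Or.inl i.2)
      · exact hB I e i.1 huS (Or.inl i.2)
      · exact hPi i.1 s i.2
      · exact hQi i.1 s i.2
  · right
    push Not at h1
    have hZJ : ∀ J e', J ≠ I → Vtx.Z J e' ∈ S := by
      intro J e' hJ
      by_contra hcon
      exact hJ (h1 J e' hcon)
    have hA0 : ∀ i : Fin a, Vtx.A i ∉ S → (i : ℕ) = 0 ∧ Vtx.Z I false ∈ S := by
      intro i hi
      have h0 : (i : ℕ) = 0 := by
        by_contra hcon
        exact hi (hA I e i huS (Or.inl hcon))
      refine ⟨h0, ?_⟩
      by_contra hcon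
      exact hi (hA I false i hcon (Or.inr rfl))
    have hB0 : ∀ i : Fin b, Vtx.B i ∉ S → (i : ℕ) = 0 ∧ Vtx.Z I true ∈ S := by
      intro i hi
      have h0 : (i : ℕ) = 0 := by
        by_contra hcon
        exact hi (hB I e i huS (Or.inl hcon))
      refine ⟨h0, ?_⟩
      by_contra hcon
      exact hi (hB I true i hcon (Or.inr rfl))
    have := card_le_of_inj
      (D := (Fin a ⊕ Fin b) ⊕ (({J : Blk k // J ≠ I} × Bool) ⊕
        ((↥I.1 × Fin t) ⊕ (↥I.1 × Fin t)))) S
      (fun d => match d with
        | Sum.inl (Sum.inl i) => if Vtx.A i ∈ S then Vtx.A i else Vtx.Z I false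
        | Sum.inl (Sum.inr i) => if Vtx.B i ∈ S then Vtx.B i else Vtx.Z I true
        | Sum.inr (Sum.inl (J, e)) => Vtx.Z J.1 e
        | Sum.inr (Sum.inr (Sum.inl (i, s))) => Vtx.P i.1 s
        | Sum.inr (Sum.inr (Sum.inr (i, s))) => Vtx.Q i.1 s) ?_ ?_
    · have hc : Nat.card {J : Blk k // J ≠ I} = nb k - 1 := by
        unfold nb
        rw [Nat.card_eq_fintype_card, Nat.card_eq_fintype_card]
        simp [Fintype.card_subtype_compl]
      rw [Nat.card_sum, Nat.card_sum, Nat.card_sum, Nat.card_sum, Nat.card_fin, Nat.card_fin,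
        Nat.card_prod, Nat.card_prod, hc, Nat.card_fin, Nat.card_eq_fintype_card,
        Fintype.card_bool, Nat.card_eq_fintype_card, Fintype.card_coe, I.2] at this
      calc _ = a + b + ((nb k - 1) * 2 + ((k + 1) * t + (k + 1) * t)) := by ring
        _ ≤ _ := this
    · rintro ((i | i) | (⟨J, e⟩ | ⟨i, s⟩ | ⟨i, s⟩)) ((i' | i') | (⟨J', e'⟩ | ⟨i', s'⟩ | ⟨i', s'⟩)) heq
      · dsimp only at heq
        split_ifs at heq with h2 h3 h3
        · simpa using heq
        · have := (hA0 i h2).1
          have := (hA0 i' h3).1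
          have : i = i' := Fin.ext (by omega)
          rw [this]
      · dsimp only at heq
        split_ifs at heq
        simp at heq
      · dsimp only at heq
        split_ifs at heq
        simp only [Vtx.Z.injEq] at heq
        exact absurd heq.1.symm J'.2
      · dsimp only at heq
        split_ifs at heq
      · dsimp only at heq
        split_ifs at heq
      · dsimp only at heq
        split_ifs at heq
        simp at heq
      · dsimp only at heq
        split_ifs at heq with h2 h3 h3
        · simpa using heq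
        · have := (hB0 i h2).1
          have := (hB0 i' h3).1
          have : i = i' := Fin.ext (by omega)
          rw [this]
      · dsimp only at heq
        split_ifs at heq
        simp only [Vtx.Z.injEq] at heq
        exact absurd heq.1.symm J'.2
      · dsimp only at heq
        split_ifs at heq
      · dsimp only at heq
        split_ifs at heq
      · dsimp only at heq
        split_ifs at heq
        simp only [Vtx.Z.injEq] at heq
        exact absurd heq.1 J.2
      · dsimp only at heq
        split_ifs at heq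
        simp only [Vtx.Z.injEq] at heq
        exact absurd heq.1 J.2
      · simp only [Vtx.Z.injEq] at heq
        obtain ⟨h1, h2⟩ := heq
        rw [Subtype.ext h1, h2]
      · simp at heq
      · simp at heq
      · dsimp only at heq
        split_ifs at heq
      · dsimp only at heq
        split_ifs at heq
      · simp at heq
      · simp only [Vtx.P.injEq] at heq
        obtain ⟨h1, h2⟩ := heq
        rw [Subtype.ext h1, h2]
      · simp at heq
      · dsimp only at heq
        split_ifs at heq
      · dsimp only at heq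
        split_ifs at heq
      · simp at heq
      · simp at heq
      · simp only [Vtx.Q.injEq] at heq
        obtain ⟨h1, h2⟩ := heq
        rw [Subtype.ext h1, h2]
    · rintro ((i | i) | (⟨J, e'⟩ | ⟨i, s⟩ | ⟨i, s⟩))
      · dsimp only
        split_ifs with h2
        · exact h2
        · exact (hA0 i h2).2
      · dsimp only
        split_ifs with h2
        · exact h2
        · exact (hB0 i h2).2
      · exact hZJ J.1 e' J.2
      · exact hP I e i.1 s huS i.2
      · exact hQ I e i.1 s huS i.2

/-- The graph is `n`-connected. -/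
lemma lower (k t e : ℕ) (ht : 3 * nb k + e ≤ t) (hc : 0 < nb k)
    (S : Set (Vtx k t (nb k + 1 + e) (nb k + 1)))
    (hS : Disconnects (gr k t (nb k + 1 + e) (nb k + 1)) S) :
    4 * nb k + e + 2 * ((k + 1) * t) ≤ S.ncard := by
  have e1 : (2 * k + 3) * t = 2 * ((k + 1) * t) + t := by ring
  have e2 : (k + 2) * t = (k + 1) * t + t := by ring
  rcases three_cases hS with ⟨hne, h⟩ | ⟨hne, h⟩ | ⟨hne, h⟩
  · rcases lower_X (by omega) hne h with h | h | h <;> omega
  · rcases lower_Y (by omega) hne h with h | h | h <;> omega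
  · rcases lower_Z (by omega) (by omega) hne h with h | h <;> omega

end Pool.Agent.CritDiam
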