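import Pool.Agent.CritDiam.Lower

/-! Every small vertex set lies in a minimum separator; distances. -/

namespace Pool.Agent.CritDiam

open SimpleGraph

variable {k t a b : ℕ}

/-- The neighbourhood of a block. -/
def sep (I : Blk k) : Set (Vtx k t a b) :=
  {v | match v with
    | .A _ => True
    | .B _ => True
    | .Z J _ => J ≠ I
    | .P i _ => i ∈ I.1
    | .Q i _ => i ∈ I.1}

lemma sep_ncard (I : Blk k) : (sep I : Set (Vtx k t a b)).ncard =
    a + b + 2 * (nb k - 1) + 2 * ((k + 1) * t) := by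
  classical
  rw [card_eq_of_inj (D := (Fin a ⊕ Fin b) ⊕ (({J : Blk k // J ≠ I} × Bool) ⊕
        ((↥I.1 × Fin t) ⊕ (↥I.1 × Fin t)))) (sep I : Set (Vtx k t a b))
      (fun d => match d with
        | Sum.inl (Sum.inl i) => Vtx.A i
        | Sum.inl (Sum.inr i) => Vtx.B i
        | Sum.inr (Sum.inl (J, e)) => Vtx.Z J.1 e
        | Sum.inr (Sum.inr (Sum.inl (i, s))) => Vtx.P i.1 s
        | Sum.inr (Sum.inr (Sum.inr (i, s))) => Vtx.Q i.1 s) ?_ ?_ ?_]
  · have hc : Nat.card {J : Blk k // J ≠ I} = nb k - 1 := by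
      unfold nb
      rw [Nat.card_eq_fintype_card, Nat.card_eq_fintype_card]
      simp [Fintype.card_subtype_compl]
    rw [Nat.card_sum, Nat.card_sum, Nat.card_sum, Nat.card_sum, Nat.card_fin, Nat.card_fin,
      Nat.card_prod, Nat.card_prod, hc, Nat.card_fin, Nat.card_eq_fintype_card,
      Fintype.card_bool, Nat.card_eq_fintype_card, Fintype.card_coe, I.2]
    ring
  · rintro ((i | i) | (⟨J, e⟩ | ⟨i, s⟩ | ⟨i, s⟩)) ((i' | i') | (⟨J', e'⟩ | ⟨i', s'⟩ | ⟨i', s'⟩)) heq <;>
      first
        | (simp at heq; done)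
        | (simp only [Vtx.A.injEq] at heq; rw [heq])
        | (simp only [Vtx.B.injEq] at heq; rw [heq])
        | (simp only [Vtx.Z.injEq] at heq; obtain ⟨h1, h2⟩ := heq; rw [Subtype.ext h1, h2])
        | (simp only [Vtx.P.injEq] at heq; obtain ⟨h1, h2⟩ := heq; rw [Subtype.ext h1, h2])
        | (simp only [Vtx.Q.injEq] at heq; obtain ⟨h1, h2⟩ := heq; rw [Subtype.ext h1, h2])
  · rintro ((i | i) | (⟨J, e⟩ | ⟨i, s⟩ | ⟨i, s⟩))
    · trivial
    · trivial
    · exact J.2
    · exact i.2
    · exact i.2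
  · intro v hv
    cases v with
    | A i => exact ⟨Sum.inl (Sum.inl i), rfl⟩
    | B i => exact ⟨Sum.inl (Sum.inr i), rfl⟩
    | Z J e => exact ⟨Sum.inr (Sum.inl (⟨J, hv⟩, e)), rfl⟩
    | P i s => exact ⟨Sum.inr (Sum.inr (Sum.inl (⟨i, hv⟩, s))), rfl⟩
    | Q i s => exact ⟨Sum.inr (Sum.inr (Sum.inr (⟨i, hv⟩, s))), rfl⟩

lemma exists_notMem (I : Blk k) : ∃ i, i ∉ I.1 := by
  by_contra hcon
  push Not at hcon
  have h1 : I.1 = Finset.univ := Finset.eq_univ_iff_forall.2 hcon
  have h2 := I.2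
  rw [h1, Finset.card_univ, Fintype.card_fin] at h2
  omega

lemma sep_disconnects (ht : 0 < t) (I : Blk k) :
    Disconnects (gr k t a b) (sep I : Set (Vtx k t a b)) := by
  rw [disconnects_iff]
  obtain ⟨i₀, hi₀⟩ := exists_notMem I
  refine ⟨{v | ∃ e, v = Vtx.Z I e}, ⟨Vtx.Z I true, ?_, true, rfl⟩,
    ⟨Vtx.P i₀ ⟨0, ht⟩, hi₀, ?_⟩, ?_⟩
  · intro h
    exact h rfl
  · rintro ⟨e, h⟩
    cases h
  · intro u v hu hv huv
    have key : ∀ u v : Vtx k t a b, u ∉ sep I → v ∉ sep I → (gr k t a b).Adj u v →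
        (∃ e, u = Vtx.Z I e) → ∃ e, v = Vtx.Z I e := by
      rintro u v hu hv huv ⟨e, rfl⟩
      cases v with
      | A i => exact absurd trivial hv
      | B i => exact absurd trivial hv
      | Z J e' =>
        have : J = I := by
          by_contra h
          exact hv h
        exact ⟨e', by rw [this]⟩
      | P i s => exact absurd ((adj_ZP I e i s).1 huv) hv
      | Q i s => exact absurd ((adj_ZQ I e i s).1 huv) hv
    exact ⟨key u v hu hv huv, key v u hv hu huv.symm⟩

lemma nonempty_blk (k : ℕ) : Nonempty (Blk k) := by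
  obtain ⟨I, -, hI⟩ := Finset.exists_superset_card_eq (s := (∅ : Finset (Fin (2 * k + 3))))
    (n := k + 1) (by simp) (by simp; omega)
  exact ⟨⟨I, hI⟩⟩

lemma nb_pos (k : ℕ) : 0 < nb k := by
  unfold nb
  have := nonempty_blk k
  exact Nat.card_pos

/-- A block containing a small set and avoiding few given blocks. -/
lemma exists_block (H : Finset (Fin (2 * k + 3))) (hH : H.card ≤ k)
    (J : Finset (Blk k)) (hJ : J.card ≤ k) : ∃ I : Blk k, H ⊆ I.1 ∧ I ∉ J := by
  classical
  obtain ⟨H', hHH', hH'⟩ := Finset.exists_superset_card_eq (s := H) (n := k) hH (by simp; omega)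
  by_contra hcon
  push Not at hcon
  have hmem : ∀ j ∈ H'ᶜ, (insert j H').card = k + 1 := by
    intro j hj
    rw [Finset.card_insert_of_notMem (Finset.mem_compl.1 hj), hH']
  have h1 : (H'ᶜ).card ≤ J.card := by
    apply Finset.card_le_card_of_injOn
      (fun j => if h : (insert j H').card = k + 1 then (⟨insert j H', h⟩ : Blk k)
        else Classical.choice (nonempty_blk k))
    · intro j hj
      have hj' := hmem j hj
      simp only [hj', dite_true]
      exact hcon ⟨insert j H', hj'⟩ (hHH'.trans (Finset.subset_insert _ _))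
    · intro j hj j' hj' heq
      have hj1 := hmem j hj
      have hj1' := hmem j' hj'
      simp only [hj1, hj1', dite_true, Subtype.mk.injEq] at heq
      have hj2 : j ∈ insert j' H' := heq ▸ Finset.mem_insert_self j H'
      rcases Finset.mem_insert.1 hj2 with h2 | h2
      · exact h2
      · exact absurd h2 (Finset.mem_compl.1 hj)
  rw [Finset.card_compl, Fintype.card_fin, hH'] at h1
  omega

lemma exists_sep (X : Set (Vtx k t a b)) (hX : X.ncard ≤ k) : ∃ I : Blk k, X ⊆ sep I := by
  classical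
  set J₀ : Blk k := Classical.choice (nonempty_blk k)
  let f : Vtx k t a b → Fin (2 * k + 3) := fun v => match v with
    | .P i _ => i
    | .Q i _ => i
    | _ => ⟨0, by omega⟩
  let g : Vtx k t a b → Blk k := fun v => match v with
    | .Z J _ => J
    | _ => J₀
  have hfin : X.Finite := Set.toFinite X
  have hcard : hfin.toFinset.card ≤ k := by
    rw [← Set.ncard_eq_toFinset_card X hfin]
    exact hX
  obtain ⟨I, hI1, hI2⟩ := exists_block (hfin.toFinset.image f)
    (Finset.card_image_le.trans hcard) (hfin.toFinset.image g) (Finset.card_image_le.trans hcard)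
  refine ⟨I, ?_⟩
  intro v hv
  have hf : f v ∈ I.1 := hI1 (Finset.mem_image_of_mem f (hfin.mem_toFinset.2 hv))
  have hg : g v ≠ I := by
    intro h
    exact hI2 (h ▸ Finset.mem_image_of_mem g (hfin.mem_toFinset.2 hv))
  cases v with
  | A i => trivial
  | B i => trivial
  | Z J e => exact hg
  | P i s => exact hf
  | Q i s => exact hf

lemma exists_adj_of_mem_sep (I : Blk k) (v : Vtx k t a b) (hv : v ∈ sep I) :
    ∃ e, (gr k t a b).Adj v (Vtx.Z I e) := by
  cases v with
  | A i => exact ⟨false, ((adj_ZA I false i).2 (Or.inr rfl)).symm⟩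
  | B i => exact ⟨true, ((adj_ZB I true i).2 (Or.inr rfl)).symm⟩
  | Z J e =>
    refine ⟨true, adj_Z trivial trivial ?_⟩
    intro h
    have : J = I := by
      cases h
      rfl
    exact hv this
  | P i s => exact ⟨true, ((adj_ZP I true i s).2 hv).symm⟩
  | Q i s => exact ⟨true, ((adj_ZQ I true i s).2 hv).symm⟩

/-- Any two vertices are joined by a walk of length at most three. -/
lemma exists_walk (hk : 2 ≤ k) (u v : Vtx k t a b) :
    ∃ p : (gr k t a b).Walk u v, p.length ≤ 3 := by
  have h2 : ({u, v} : Set (Vtx k t a b)).ncard ≤ 2 := by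
    have := Set.ncard_insert_le u ({v} : Set (Vtx k t a b))
    rwa [Set.ncard_singleton] at this
  obtain ⟨I, hI⟩ := exists_sep ({u, v} : Set (Vtx k t a b)) (h2.trans hk)
  obtain ⟨e, he⟩ := exists_adj_of_mem_sep I u (hI (by simp))
  obtain ⟨e', he'⟩ := exists_adj_of_mem_sep I v (hI (by simp))
  by_cases hee : e = e'
  · subst hee
    exact ⟨Walk.cons he (Walk.cons he'.symm Walk.nil), by simp⟩
  · have h1 : (gr k t a b).Adj (Vtx.Z I e) (Vtx.Z I e') := by
      refine adj_Z (u := Vtx.Z I e) (v := Vtx.Z I e') trivial trivial ?_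
      intro h
      simp only [Vtx.Z.injEq, true_and] at h
      exact hee h
    exact ⟨Walk.cons he (Walk.cons h1 (Walk.cons he'.symm Walk.nil)), by simp⟩

lemma connected (hk : 2 ≤ k) (ha : 0 < a) : (gr k t a b).Connected := by
  have : Nonempty (Vtx k t a b) := ⟨Vtx.A ⟨0, ha⟩⟩
  refine ⟨fun u v => ?_⟩
  obtain ⟨p, -⟩ := exists_walk hk u v
  exact ⟨p⟩

lemma three_le_dist (hk : 2 ≤ k) (ha : 0 < a) (hb : 0 < b) :
    3 ≤ (gr k t a b).dist (Vtx.A ⟨0, ha⟩) (Vtx.B ⟨0, hb⟩) := by
  obtain ⟨p, hp⟩ := (connected (t := t) (b := b) hk ha).exists_walk_length_eq_dist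
    (Vtx.A ⟨0, ha⟩) (Vtx.B ⟨0, hb⟩)
  rw [← hp]
  cases p with
  | cons h1 p =>
    cases p with
    | nil =>
      exfalso
      simp [gr, fromRel_adj, rel] at h1
    | @cons _ w _ h2 p =>
      cases p with
      | nil =>
        exfalso
        rename_i w
        cases w with
        | A i => simp [gr, fromRel_adj, rel] at h2
        | B i => simp [gr, fromRel_adj, rel] at h1
        | Z J e =>
          have h3 := (adj_ZA J e ⟨0, ha⟩).1 h1.symm
          have h4 := (adj_ZB J e ⟨0, hb⟩).1 h2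
          simp at h3 h4
          rw [h3] at h4
          exact absurd h4 (by simp)
        | P i s => simp [gr, fromRel_adj, rel] at h2
        | Q i s => simp [gr, fromRel_adj, rel] at h1
      | cons h3 p =>
        simp only [Walk.length_cons]
        omega

lemma diam_eq (hk : 2 ≤ k) (ha : 0 < a) (hb : 0 < b) : (gr k t a b).diam = 3 := by
  have : Nonempty (Vtx k t a b) := ⟨Vtx.A ⟨0, ha⟩⟩
  have hconn : (gr k t a b).Connected := connected hk ha
  apply le_antisymm
  · obtain ⟨u, v, huv⟩ := (gr k t a b).exists_dist_eq_diam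
    rw [← huv]
    obtain ⟨p, hp⟩ := exists_walk hk u v
    exact (dist_le p).trans hp
  · exact (three_le_dist hk ha hb).trans (dist_le_diam (connected_iff_ediam_ne_top.1 hconn))

lemma isNK (k t e : ℕ) (ht : 3 * nb k + e ≤ t) :
    IsNK (4 * nb k + e + 2 * ((k + 1) * t)) k (gr k t (nb k + 1 + e) (nb k + 1)) := by
  have hc := nb_pos k
  apply isNK_of
  · intro S hS
    exact lower k t e ht hc S hS
  · intro X hX
    obtain ⟨I, hI⟩ := exists_sep X hX
    refine ⟨sep I, hI, sep_disconnects (by omega) I, ?_⟩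
    rw [sep_ncard]
    omega

lemma nb_le (k : ℕ) : nb k ≤ 4 ^ (k + 1) := by
  have h1 : nb k = (2 * k + 3).choose (k + 1) := by
    unfold nb
    rw [Nat.card_eq_fintype_card, Fintype.card_finset_len, Fintype.card_fin]
  rw [h1]
  exact Nat.choose_middle_le_pow (k + 1)

theorem main (k : ℕ) (hk : 2 ≤ k) (n : ℕ) (hn : 32 * (k + 2) * 4 ^ k ≤ n) :
    ∃ (V : Type) (_ : Finite V) (G : SimpleGraph V), IsNK n k G ∧ G.diam = 3 := by
  have hc := nb_pos k
  have hc4 := nb_le k
  set c := nb k with hcdef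
  set m := 2 * (k + 1) with hm
  set e := (n - 4 * c) % m with he
  set t := (n - 4 * c) / m with ht
  have hm0 : 0 < m := by omega
  have he1 : e < m := Nat.mod_lt _ hm0
  have hdiv : m * t + e = n - 4 * c := Nat.div_add_mod _ _
  have hpow : 4 ^ (k + 1) = 4 * 4 ^ k := by ring
  have hpow1 : k + 1 ≤ 4 ^ k := by
    have : k < 4 ^ k := Nat.lt_pow_self (by norm_num)
    omega
  have hn4 : 4 * c ≤ n := by
    calc 4 * c ≤ 4 * (4 * 4 ^ k) := by rw [← hpow]; omega
      _ ≤ 32 * (k + 2) * 4 ^ k := by nlinarith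
      _ ≤ n := hn
  have ht1 : 3 * c + e ≤ t := by
    have h2 : 3 * c + m ≤ t := by
      rw [ht, Nat.le_div_iff_mul_le hm0]
      have h3 : (3 * c + m) * m + 4 * c ≤ n := by
        calc (3 * c + m) * m + 4 * c ≤ (3 * (4 * 4 ^ k) + m) * m + 4 * (4 * 4 ^ k) := by
              rw [hpow] at hc4
              gcongr
          _ ≤ 32 * (k + 2) * 4 ^ k := by
              rw [hm]
              nlinarith
          _ ≤ n := hn
      omega
    omega
  refine ⟨Vtx k t (c + 1 + e) (c + 1), inferInstance, gr k t (c + 1 + e) (c + 1), ?_,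
    diam_eq hk (by omega) (by omega)⟩
  have h := isNK k t e ht1
  have hn' : 4 * nb k + e + 2 * ((k + 1) * t) = n := by
    have h5 : 2 * ((k + 1) * t) = m * t := by rw [hm]; ring
    rw [h5]
    omega
  rw [hn'] at h
  exact h

end Pool.Agent.CritDiam
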